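import Mathlib

set_option autoImplicit false

namespace Pool.Agent.W219.UF

open Finset

/-- sum of the reciprocals of a multiset -/
noncomputable def sg (A : Multiset ℕ) : ℝ := (A.map (fun n : ℕ => (1 : ℝ) / (n : ℝ))).sum

lemma sg_add (A B : Multiset ℕ) : sg (A + B) = sg A + sg B := by
  simp [sg]

lemma sg_cons (a : ℕ) (A : Multiset ℕ) : sg (a ::ₘ A) = 1 / (a : ℝ) + sg A := by
  simp [sg]

lemma sg_replicate (c a : ℕ) : sg (Multiset.replicate c a) = c * (1 / (a : ℝ)) := by
  simp [sg]

lemma sg_nonneg (A : Multiset ℕ) : 0 ≤ sg A := by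
  unfold sg
  apply Multiset.sum_nonneg
  intro x hx
  rw [Multiset.mem_map] at hx
  obtain ⟨n, _, rfl⟩ := hx
  positivity

/-- merging equal unit fractions, keeping track of the prime factors -/
lemma merge (P : Finset ℕ) : ∀ (n : ℕ) (A : Multiset ℕ), A.card ≤ n →
    (∀ a ∈ A, 0 < a ∧ a.primeFactors ⊆ P) →
    ∃ A' : Multiset ℕ, sg A' = sg A ∧ (∀ S' ≤ A', ∃ S ≤ A, sg S = sg S') ∧
      (∀ a ∈ A', 0 < a ∧ a.primeFactors ⊆ P) ∧
      (1 ∈ A' ∨ ∀ a ∈ A', 2 ≤ a ∧ A'.count a < a.minFac) := by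
  classical
  intro n
  induction n with
  | zero =>
    intro A hA hpos
    have h0 : A = 0 := by
      rw [← Multiset.card_eq_zero]; omega
    refine ⟨A, rfl, fun S' h => ⟨S', h, rfl⟩, hpos, Or.inr ?_⟩
    intro a ha
    rw [h0] at ha
    exact absurd ha (Multiset.notMem_zero a)
  | succ n ih =>
    intro A hA hpos
    by_cases h1 : 1 ∈ A
    · exact ⟨A, rfl, fun S' h => ⟨S', h, rfl⟩, hpos, Or.inl h1⟩
    by_cases h2 : ∀ a ∈ A, 2 ≤ a ∧ A.count a < a.minFac
    · exact ⟨A, rfl, fun S' h => ⟨S', h, rfl⟩, hpos, Or.inr h2⟩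
    push Not at h2
    obtain ⟨a, ha, h3⟩ := h2
    have ha0 := (hpos a ha).1
    have ha1 : a ≠ 1 := fun h => h1 (h ▸ ha)
    have ha2 : 2 ≤ a := by omega
    have h4 := h3 ha2
    have hp := Nat.minFac_prime ha1
    have hpda : a.minFac ∣ a := Nat.minFac_dvd a
    set p := a.minFac with hpdef
    have hpd : a / p * p = a := Nat.div_mul_cancel hpda
    have hdd : a / p ∣ a := ⟨p, hpd.symm⟩
    set d := a / p with hd
    have hle : Multiset.replicate p a ≤ A := by
      rw [← Multiset.le_count_iff_replicate_le]; exact h4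
    obtain ⟨A0, hA0⟩ := Multiset.le_iff_exists_add.1 hle
    have hcard : A.card = p + A0.card := by
      rw [hA0, Multiset.card_add, Multiset.card_replicate]
    have hd0 : 0 < d := by
      rcases Nat.eq_zero_or_pos d with h | h
      · rw [h] at hpd; omega
      · exact h
    have hp2 := hp.two_le
    obtain ⟨A', hA'1, hA'2, hA'4, hA'3⟩ := ih (d ::ₘ A0) (by rw [Multiset.card_cons]; omega) (by
      intro b hb
      rw [Multiset.mem_cons] at hb
      rcases hb with rfl | hb
      · exact ⟨hd0, (Nat.primeFactors_mono hdd (by omega)).trans (hpos a ha).2⟩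
      · apply hpos
        rw [hA0]
        exact Multiset.mem_add.2 (Or.inr hb))
    have hsgd : (1 : ℝ) / (d : ℝ) = sg (Multiset.replicate p a) := by
      rw [sg_replicate]
      have h5 : (a : ℝ) = d * p := by exact_mod_cast hpd.symm
      have h6 : (0 : ℝ) < d := by exact_mod_cast hd0
      have h7 : (0 : ℝ) < p := by exact_mod_cast hp.pos
      rw [h5]
      field_simp
    refine ⟨A', ?_, ?_, hA'4, hA'3⟩
    · rw [hA'1, sg_cons, hA0, sg_add, hsgd]
    · intro S' hS'
      obtain ⟨S, hS, hSS⟩ := hA'2 S' hS'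
      by_cases hdS : d ∈ S
      · refine ⟨Multiset.replicate p a + S.erase d, ?_, ?_⟩
        · rw [hA0]
          exact add_le_add_right (Multiset.erase_le_iff_le_cons.2 hS) _
        · rw [sg_add, ← hsgd, ← sg_cons, Multiset.cons_erase hdS, hSS]
      · refine ⟨S, ?_, hSS⟩
        rw [hA0]
        exact ((Multiset.le_cons_of_notMem hdS).1 hS).trans (Multiset.le_add_left _ _)

/-- the weight of a set of primes -/
noncomputable def W (P : Finset ℕ) : ℝ :=
  ∑ p ∈ P, ∏ q ∈ P.filter (fun q => p < q), (1 - 1 / (q : ℝ))⁻¹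

lemma W_empty : W ∅ = 0 := by simp [W]

lemma W_insert (m : ℕ) (P : Finset ℕ) (h : ∀ x ∈ P, x < m) :
    W (insert m P) = W P * (1 - 1 / (m : ℝ))⁻¹ + 1 := by
  classical
  have hm : m ∉ P := fun h1 => lt_irrefl _ (h m h1)
  unfold W
  rw [Finset.sum_insert hm]
  have h1 : (insert m P).filter (fun q => m < q) = ∅ := by
    rw [Finset.filter_eq_empty_iff]
    intro x hx
    rw [Finset.mem_insert] at hx
    rcases hx with rfl | hx
    · exact lt_irrefl _
    · have := h x hx
      omega
  rw [h1, Finset.prod_empty, Finset.sum_mul, add_comm]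
  congr 1
  refine Finset.sum_congr rfl (fun p hp => ?_)
  have h2 : (insert m P).filter (fun q => p < q) = insert m (P.filter (fun q => p < q)) := by
    rw [Finset.filter_insert, if_pos (h p hp)]
  rw [h2, Finset.prod_insert (fun h3 => hm (Finset.mem_filter.1 h3).1), mul_comm]

/-- there are few primes up to `m` -/
lemma card_le (P : Finset ℕ) (hP : ∀ p ∈ P, p.Prime) (m : ℕ) (h : ∀ x ∈ P, x ≤ m) :
    P.card ≤ (m + 1) / 2 := by
  classical
  have h1 : P.card ≤ (Finset.Icc 1 ((m + 1) / 2)).card := by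
    apply Finset.card_le_card_of_injOn (fun q => (q + 1) / 2)
    · intro q hq
      have h2 := (hP q hq).two_le
      have h3 := h q hq
      simp only [Finset.coe_Icc, Set.mem_Icc]
      omega
    · intro q hq r hr hqr
      simp only at hqr
      have hq1 := hP q hq
      have hr1 := hP r hr
      rcases hq1.eq_two_or_odd with h2 | h2 <;> rcases hr1.eq_two_or_odd with h3 | h3
      · omega
      · have := hr1.two_le; omega
      · have := hq1.two_le; omega
      · omega
  simpa using h1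

lemma W_le (P : Finset ℕ) (hP : ∀ p ∈ P, p.Prime) (hne : P.Nonempty) :
    W P ≤ 2 * P.card - 1 := by
  classical
  have main : ∀ P : Finset ℕ, (∀ p ∈ P, p.Prime) → P.Nonempty → W P ≤ 2 * P.card - 1 := by
    intro P
    induction P using Finset.induction_on_max with
    | empty => intro _ h; simp at h
    | insert m P hm ih =>
      intro hP _
      have hmP : m ∉ P := fun h1 => lt_irrefl _ (hm m h1)
      rw [W_insert m P hm, Finset.card_insert_of_notMem hmP]
      rcases P.eq_empty_or_nonempty with h0 | h0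
      · rw [h0, W_empty]; norm_num
      · have h1 := ih (fun p hp => hP p (Finset.mem_insert_of_mem hp)) h0
        have h2 := card_le (insert m P) hP m (by
          intro x hx
          rw [Finset.mem_insert] at hx
          rcases hx with rfl | hx
          · exact le_rfl
          · exact (hm x hx).le)
        rw [Finset.card_insert_of_notMem hmP] at h2
        have hk : 1 ≤ P.card := h0.card_pos
        have hmk : 2 * P.card + 1 ≤ m := by omega
        have hkr : (1 : ℝ) ≤ P.card := by exact_mod_cast hk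
        have hmr : 2 * (P.card : ℝ) + 1 ≤ m := by exact_mod_cast hmk
        have h3 : (1 - 1 / (m : ℝ))⁻¹ ≤ (2 * (P.card : ℝ) + 1) / (2 * P.card) := by
          rw [inv_le_comm₀ _ (by positivity), inv_div]
          · rw [div_le_iff₀ (by positivity)]
            have h4 : 1 / (m : ℝ) ≤ 1 / (2 * (P.card : ℝ) + 1) :=
              one_div_le_one_div_of_le (by positivity) hmr
            have h5 : (1 : ℝ) / (2 * (P.card : ℝ) + 1) * (2 * (P.card : ℝ) + 1) = 1 := by
              field_simp
            nlinarith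
          · have h4 : 1 / (m : ℝ) ≤ 1 / 3 :=
              one_div_le_one_div_of_le (by norm_num) (by linarith)
            linarith
        have h6 : 0 ≤ (1 - 1 / (m : ℝ))⁻¹ := by
          apply inv_nonneg.2
          have h4 : 1 / (m : ℝ) ≤ 1 / 3 :=
            one_div_le_one_div_of_le (by norm_num) (by linarith)
          linarith
        have h7 : W P * (1 - 1 / (m : ℝ))⁻¹ ≤
            (2 * (P.card : ℝ) - 1) * ((2 * (P.card : ℝ) + 1) / (2 * P.card)) :=
          mul_le_mul h1 h3 h6 (by linarith)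
        have h8 : (2 * (P.card : ℝ) - 1) * ((2 * (P.card : ℝ) + 1) / (2 * P.card)) ≤ 2 * P.card := by
          rw [← mul_div_assoc, div_le_iff₀ (by positivity)]
          nlinarith
        push_cast
        linarith
  exact main P hP hne

/-- reciprocals of the numbers with prime factors in `Q` -/
lemma factored_sum (Q : Finset ℕ) (hQ : ∀ q ∈ Q, q.Prime) (F : Finset ℕ)
    (hF : ∀ a ∈ F, 0 < a ∧ a.primeFactors ⊆ Q) :
    ∑ a ∈ F, (1 : ℝ) / (a : ℝ) ≤ ∏ q ∈ Q, (1 - 1 / (q : ℝ))⁻¹ := by
  classical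
  let f : ℕ →* ℝ :=
    { toFun := fun n => 1 / (n : ℝ)
      map_one' := by simp
      map_mul' := fun m n => by push_cast; rw [one_div_mul_one_div] }
  have hf : ∀ n : ℕ, f n = 1 / (n : ℝ) := fun n => rfl
  have h1 := EulerProduct.summable_and_hasSum_factoredNumbers_prod_filter_prime_geometric (f := f)
    (fun {p} hp => by
      rw [hf, Real.norm_eq_abs, abs_of_nonneg (by positivity), div_lt_one (by
        have := hp.pos; exact_mod_cast this)]
      exact_mod_cast hp.one_lt) Q
  have h2 : Q.filter (fun p => p.Prime) = Q := Finset.filter_true_of_mem hQ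
  rw [h2] at h1
  have h3 : ∀ a ∈ F, a ∈ Nat.factoredNumbers Q := by
    intro a ha
    exact Nat.mem_factoredNumbers_of_primeFactors_subset (hF a ha).1.ne' (hF a ha).2
  have h4 := sum_le_hasSum (F.attach.image
    (fun a => (⟨a.1, h3 a.1 a.2⟩ : Nat.factoredNumbers Q))) (fun i _ => by
      show 0 ≤ f i
      rw [hf]; positivity) h1.2
  rw [Finset.sum_image (by
    intro a _ b _ hab
    have := congrArg (fun x : Nat.factoredNumbers Q => (x : ℕ)) hab
    exact Subtype.ext this)] at h4
  refine le_trans (le_of_eq ?_) h4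
  rw [← Finset.sum_attach F (fun a => (1 : ℝ) / (a : ℝ))]
  rfl

/-- the mass of a merged multiset is bounded in terms of the number of primes -/
lemma mass_le (P : Finset ℕ) (hP : ∀ p ∈ P, p.Prime) (A : Multiset ℕ)
    (hA : ∀ a ∈ A, 0 < a ∧ a.primeFactors ⊆ P)
    (hred : ∀ a ∈ A, 2 ≤ a ∧ A.count a < a.minFac) :
    sg A ≤ W P := by
  classical
  have h1 : sg A = ∑ a ∈ A.toFinset, (A.count a : ℝ) * (1 / (a : ℝ)) := by
    unfold sg
    rw [Finset.sum_multiset_map_count]
    exact Finset.sum_congr rfl (fun a _ => by rw [nsmul_eq_mul])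
  have hmem : ∀ a ∈ A.toFinset, a ∈ A := fun a ha => Multiset.mem_toFinset.1 ha
  have hmin : ∀ a ∈ A.toFinset, a.minFac ∈ P := by
    intro a ha
    have h2 := hred a (hmem a ha)
    apply (hA a (hmem a ha)).2
    rw [Nat.mem_primeFactors]
    exact ⟨Nat.minFac_prime (by omega), Nat.minFac_dvd a, by omega⟩
  rw [h1, ← Finset.sum_fiberwise_of_maps_to (g := fun a => a.minFac) (t := P) hmin]
  unfold W
  refine Finset.sum_le_sum (fun p hp => ?_)
  have hpp := hP p hp
  have hp2 : (2 : ℝ) ≤ p := by exact_mod_cast hpp.two_le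
  obtain ⟨F, hF⟩ : ∃ F : Finset ℕ, F = A.toFinset.filter (fun a => a.minFac = p) := ⟨_, rfl⟩
  rw [← hF]
  have hFm : ∀ a ∈ F, a ∈ A ∧ a.minFac = p := by
    intro a ha
    rw [hF, Finset.mem_filter] at ha
    exact ⟨hmem a ha.1, ha.2⟩
  have hdvd : ∀ a ∈ F, p ∣ a := by
    intro a ha
    rw [← (hFm a ha).2]
    exact Nat.minFac_dvd a
  have h2 : ∑ a ∈ F, (A.count a : ℝ) * (1 / (a : ℝ)) ≤
      ∑ a ∈ F, ((p : ℝ) - 1) * (1 / p) * (1 / ((a / p : ℕ) : ℝ)) := by
    refine Finset.sum_le_sum (fun a ha => ?_)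
    have h3 := (hred a (hFm a ha).1).2
    rw [(hFm a ha).2] at h3
    have h4 : (A.count a : ℝ) ≤ p - 1 := by
      have h5 : A.count a + 1 ≤ p := h3
      have h6 : ((A.count a : ℝ)) + 1 ≤ p := by exact_mod_cast h5
      linarith
    have h5 : (a : ℝ) = p * ((a / p : ℕ) : ℝ) := by
      have := Nat.mul_div_cancel' (hdvd a ha)
      exact_mod_cast this.symm
    have h6 : (1 : ℝ) / (a : ℝ) = 1 / p * (1 / ((a / p : ℕ) : ℝ)) := by
      rw [one_div_mul_one_div, ← h5]
    rw [h6, mul_assoc]
    exact mul_le_mul_of_nonneg_right h4 (by positivity)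
  refine h2.trans ?_
  rw [← Finset.mul_sum]
  have h3 : ∑ a ∈ F, (1 : ℝ) / ((a / p : ℕ) : ℝ) = ∑ b ∈ F.image (fun a => a / p), (1 : ℝ) / (b : ℝ) := by
    rw [Finset.sum_image]
    intro a ha b hb hab
    have h4 := Nat.mul_div_cancel' (hdvd a ha)
    have h5 := Nat.mul_div_cancel' (hdvd b hb)
    simp only at hab
    rw [← h4, ← h5, hab]
  have h4 : ∑ b ∈ F.image (fun a => a / p), (1 : ℝ) / (b : ℝ) ≤
      ∏ q ∈ insert p (P.filter (fun q => p < q)), (1 - 1 / (q : ℝ))⁻¹ := by
    apply factored_sum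
    · intro q hq
      rw [Finset.mem_insert] at hq
      rcases hq with rfl | hq
      · exact hpp
      · exact hP q (Finset.mem_filter.1 hq).1
    · intro b hb
      rw [Finset.mem_image] at hb
      obtain ⟨a, ha, rfl⟩ := hb
      have ha2 := hred a (hFm a ha).1
      have h5 := Nat.mul_div_cancel' (hdvd a ha)
      have h6 : 0 < a / p := Nat.div_pos (Nat.le_of_dvd (by omega) (hdvd a ha)) hpp.pos
      refine ⟨h6, ?_⟩
      intro q hq
      have hq1 := Nat.mem_primeFactors.1 hq
      have hqa : q ∣ a := hq1.2.1.trans (Nat.div_dvd_of_dvd (hdvd a ha))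
      have h7 : p ≤ q := by
        rw [← (hFm a ha).2]
        exact Nat.minFac_le_of_dvd hq1.1.two_le hqa
      have h8 : q ∈ P := (hA a (hFm a ha).1).2 (Nat.mem_primeFactors.2 ⟨hq1.1, hqa, by omega⟩)
      rw [Finset.mem_insert, Finset.mem_filter]
      rcases h7.eq_or_lt with h9 | h9
      · exact Or.inl h9.symm
      · exact Or.inr ⟨h8, h9⟩
  rw [Finset.prod_insert (by simp)] at h4
  rw [h3]
  have h5 : ((p : ℝ) - 1) * (1 / p) * (1 - 1 / (p : ℝ))⁻¹ = 1 := by
    have h6 : (p : ℝ) ≠ 0 := by linarith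
    have h7 : (p : ℝ) - 1 ≠ 0 := by
      intro h; linarith
    have h8 : (1 - 1 / (p : ℝ)) = ((p : ℝ) - 1) * (1 / p) := by
      field_simp
    rw [h8]
    apply mul_inv_cancel₀
    exact mul_ne_zero h7 (one_div_ne_zero h6)
  have h6 : 0 ≤ ((p : ℝ) - 1) * (1 / p) := by
    apply mul_nonneg (by linarith) (by positivity)
  calc ((p : ℝ) - 1) * (1 / p) * ∑ b ∈ F.image (fun a => a / p), (1 : ℝ) / (b : ℝ)
      ≤ ((p : ℝ) - 1) * (1 / p) * ((1 - 1 / (p : ℝ))⁻¹ *
          ∏ q ∈ P.filter (fun q => p < q), (1 - 1 / (q : ℝ))⁻¹) :=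
        mul_le_mul_of_nonneg_left h4 h6
    _ = ∏ q ∈ P.filter (fun q => p < q), (1 - 1 / (q : ℝ))⁻¹ := by
        rw [← mul_assoc, h5, one_mul]

/-- exact sub-sum one when few primes are involved -/
theorem exact_one (P : Finset ℕ) (hP : ∀ p ∈ P, p.Prime) (A : Multiset ℕ) (hA0 : A ≠ 0)
    (hA : ∀ a ∈ A, 0 < a ∧ a.primeFactors ⊆ P) (hmass : 2 * (P.card : ℝ) - 1 < sg A) :
    ∃ S ≤ A, sg S = 1 := by
  classical
  rcases P.eq_empty_or_nonempty with h0 | h0
  · obtain ⟨a, ha⟩ := Multiset.exists_mem_of_ne_zero hA0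
    have h1 := hA a ha
    rw [h0, Finset.subset_empty, Nat.primeFactors_eq_empty] at h1
    have h2 : a = 1 := by omega
    refine ⟨{a}, Multiset.singleton_le.2 ha, ?_⟩
    simp [sg, h2]
  · obtain ⟨A', h1, h2, h3, h4⟩ := merge P A.card A le_rfl hA
    rcases h4 with h4 | h4
    · obtain ⟨S, hS, h5⟩ := h2 {1} (Multiset.singleton_le.2 h4)
      refine ⟨S, hS, ?_⟩
      rw [h5]; simp [sg]
    · exfalso
      have h5 := mass_le P hP A' h3 h4
      have h6 := W_le P hP h0
      rw [h1] at h5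
      linarith

end Pool.Agent.W219.UF
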