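import Mathlib
import Pool.Agent.W219.UF.Merge

set_option autoImplicit false

namespace Pool.Agent.W219.UF

open Finset

/-- the extremal multiset: every prime `p` of `P` repeated `p - 1` times -/
noncomputable def ext (P : Finset ℕ) : Multiset ℕ := ∑ p ∈ P, Multiset.replicate (p - 1) p

lemma sg_zero : sg 0 = 0 := by simp [sg]

lemma sg_sum {ι : Type*} (s : Finset ι) (f : ι → Multiset ℕ) :
    sg (∑ l ∈ s, f l) = ∑ l ∈ s, sg (f l) := by
  classical
  induction s using Finset.induction_on with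
  | empty => simp [sg_zero]
  | insert a s ha ih => rw [Finset.sum_insert ha, Finset.sum_insert ha, sg_add, ih]

lemma sg_ext (P : Finset ℕ) (hP : ∀ p ∈ P, p.Prime) :
    sg (ext P) = ∑ p ∈ P, (1 - 1 / (p : ℝ)) := by
  unfold ext
  rw [sg_sum]
  refine Finset.sum_congr rfl (fun p hp => ?_)
  have h1 := (hP p hp).pos
  have h2 : (p : ℝ) ≠ 0 := by
    have : (0 : ℝ) < p := by exact_mod_cast h1
    exact this.ne'
  rw [sg_replicate, Nat.cast_sub h1]
  field_simp
  simp

lemma count_ext (P : Finset ℕ) (a : ℕ) : (ext P).count a = if a ∈ P then a - 1 else 0 := by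
  classical
  unfold ext
  rw [Multiset.count_sum']
  simp only [Multiset.count_replicate]
  rw [Finset.sum_ite_eq']

lemma sg_count (A : Multiset ℕ) (P : Finset ℕ) (h : ∀ a ∈ A, a ∈ P) :
    sg A = ∑ a ∈ P, (A.count a : ℝ) * (1 / (a : ℝ)) := by
  classical
  unfold sg
  rw [Finset.sum_multiset_map_count]
  have h1 : A.toFinset ⊆ P := fun a ha => h a (Multiset.mem_toFinset.1 ha)
  rw [← Finset.sum_subset h1]
  · exact Finset.sum_congr rfl (fun a _ => by rw [nsmul_eq_mul])
  · intro a _ ha
    rw [Multiset.mem_toFinset] at ha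
    rw [Multiset.count_eq_zero_of_notMem ha]
    simp

/-- the extremal multiset has no exact sub-sum one -/
theorem ext_no (P : Finset ℕ) (hP : ∀ p ∈ P, p.Prime) (S : Multiset ℕ) (hS : S ≤ ext P) :
    sg S ≠ 1 := by
  classical
  intro h
  have hmem : ∀ a ∈ S, a ∈ P := by
    intro a ha
    have h1 : 0 < (ext P).count a := by
      rw [Multiset.count_pos]
      exact Multiset.mem_of_le hS ha
    rw [count_ext] at h1
    by_contra h2
    rw [if_neg h2] at h1
    exact lt_irrefl _ h1
  rw [sg_count S P hmem] at h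
  -- multiply by the product of the primes
  have hne : ∀ p ∈ P, (p : ℝ) ≠ 0 := fun p hp => by
    have := (hP p hp).pos
    have : (0 : ℝ) < p := by exact_mod_cast this
    exact this.ne'
  have h2 : ∑ a ∈ P, S.count a * ∏ q ∈ P.erase a, q = ∏ q ∈ P, q := by
    have h3 : ((∑ a ∈ P, S.count a * ∏ q ∈ P.erase a, q : ℕ) : ℝ) = ((∏ q ∈ P, q : ℕ) : ℝ) := by
      push_cast
      rw [← one_mul (∏ q ∈ P, (q : ℝ)), ← h, Finset.sum_mul]
      refine Finset.sum_congr rfl (fun a ha => ?_)
      rw [← Finset.mul_prod_erase P (fun q => (q : ℝ)) ha]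
      have := hne a ha
      field_simp
    exact_mod_cast h3
  have h3 : ∀ p ∈ P, S.count p = 0 := by
    intro p hp
    have hpp := hP p hp
    have h4 : p ∣ ∑ a ∈ P, S.count a * ∏ q ∈ P.erase a, q := by
      rw [h2]; exact Finset.dvd_prod_of_mem _ hp
    rw [← Finset.add_sum_erase P _ hp] at h4
    have h5 : p ∣ ∑ a ∈ P.erase p, S.count a * ∏ q ∈ P.erase a, q := by
      refine Finset.dvd_sum (fun a ha => ?_)
      apply Dvd.dvd.mul_left
      apply Finset.dvd_prod_of_mem
      rw [Finset.mem_erase] at ha ⊢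
      exact ⟨fun h => ha.1 h.symm, hp⟩
    have h6 : p ∣ S.count p * ∏ q ∈ P.erase p, q := (Nat.dvd_add_left h5).1 h4
    have h7 : ¬ p ∣ ∏ q ∈ P.erase p, q := by
      rw [Prime.dvd_finset_prod_iff hpp.prime]
      rintro ⟨q, hq, hpq⟩
      rw [Finset.mem_erase] at hq
      exact hq.1 ((Nat.prime_dvd_prime_iff_eq hpp (hP q hq.2)).1 hpq).symm
    have h8 : p ∣ S.count p := (hpp.dvd_mul.1 h6).resolve_right h7
    have h9 : S.count p ≤ (ext P).count p := Multiset.count_le_of_le p hS
    rw [count_ext, if_pos hp] at h9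
    rcases Nat.eq_zero_or_pos (S.count p) with h10 | h10
    · exact h10
    · have := Nat.le_of_dvd h10 h8
      have := hpp.pos
      omega
  rw [Finset.sum_eq_zero (fun a ha => by rw [h3 a ha]; simp)] at h
  norm_num at h

end Pool.Agent.W219.UF
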