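import Mathlib
import Pool.Agent.W219.UF.Sharp

set_option autoImplicit false

namespace Pool.Agent.W219.UF

open Finset

/-- version with the exact weight of the set of primes, only using the elements built from `P` -/
theorem exact_W (P : Finset ℕ) (hP : ∀ p ∈ P, p.Prime) (hne : P.Nonempty) (A : Multiset ℕ)
    (hpos : ∀ a ∈ A, 0 < a) (hmass : W P < sg (A.filter (fun a => a.primeFactors ⊆ P))) :
    ∃ S ≤ A, sg S = 1 := by
  classical
  obtain ⟨A', h1, h2, h3, h4⟩ := merge P (A.filter (fun a => a.primeFactors ⊆ P)).card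
    (A.filter (fun a => a.primeFactors ⊆ P)) le_rfl (by
      intro a ha
      rw [Multiset.mem_filter] at ha
      exact ⟨hpos a ha.1, ha.2⟩)
  rcases h4 with h4 | h4
  · obtain ⟨S, hS, h5⟩ := h2 {1} (Multiset.singleton_le.2 h4)
    refine ⟨S, hS.trans (Multiset.filter_le _ _), ?_⟩
    rw [h5]; simp [sg]
  · exfalso
    have h5 := mass_le P hP A' h3 h4
    rw [h1] at h5
    linarith

/-- version with `K`: few primes -/
theorem few_primes (K : ℝ) (hK : 1 < K) (A : Multiset ℕ) (hpos : ∀ a ∈ A, 0 < a)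
    (hmass : K < sg A) (hfew : 2 * ((A.toFinset.biUnion Nat.primeFactors).card : ℝ) ≤ K + 1) :
    ∃ S ≤ A, sg S = 1 := by
  classical
  apply exact_one (A.toFinset.biUnion Nat.primeFactors)
  · intro p hp
    rw [Finset.mem_biUnion] at hp
    obtain ⟨a, _, h⟩ := hp
    exact Nat.prime_of_mem_primeFactors h
  · rintro rfl
    rw [sg_zero] at hmass
    linarith
  · intro a ha
    refine ⟨hpos a ha, ?_⟩
    intro p hp
    rw [Finset.mem_biUnion]
    exact ⟨a, Multiset.mem_toFinset.2 ha, hp⟩
  · linarith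

/-- a set of `k` integers above one has product at least `(k + 1)!` -/
lemma factorial_le_prod (P : Finset ℕ) (hP : ∀ p ∈ P, 2 ≤ p) :
    (P.card + 1).factorial ≤ ∏ p ∈ P, p := by
  classical
  induction P using Finset.induction_on_max with
  | empty => simp
  | insert m P hm ih =>
    have hmP : m ∉ P := fun h1 => lt_irrefl _ (hm m h1)
    rw [Finset.card_insert_of_notMem hmP, Finset.prod_insert hmP, Nat.factorial_succ]
    apply Nat.mul_le_mul
    · have h1 : P ⊆ Finset.Ico 2 m := by
        intro x hx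
        rw [Finset.mem_Ico]
        exact ⟨hP x (Finset.mem_insert_of_mem hx), hm x hx⟩
      have h2 := Finset.card_le_card h1
      rw [Nat.card_Ico] at h2
      have h3 := hP m (Finset.mem_insert_self m P)
      omega
    · exact ih (fun p hp => hP p (Finset.mem_insert_of_mem hp))

/-- version with `K`: small common multiple -/
theorem small_lcm (K : ℝ) (hK : 1 < K) (A : Multiset ℕ) (hpos : ∀ a ∈ A, 0 < a)
    (hmass : K < sg A) (L : ℕ) (hL0 : 0 < L) (hL : ∀ a ∈ A, a ∣ L)
    (hLK : L < (⌊(K + 1) / 2⌋₊ + 2).factorial) :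
    ∃ S ≤ A, sg S = 1 := by
  classical
  apply few_primes K hK A hpos hmass
  have h1 : A.toFinset.biUnion Nat.primeFactors ⊆ L.primeFactors := by
    intro p hp
    rw [Finset.mem_biUnion] at hp
    obtain ⟨a, ha, h⟩ := hp
    exact Nat.primeFactors_mono (hL a (Multiset.mem_toFinset.1 ha)) hL0.ne' h
  have h2 := Finset.card_le_card h1
  have h3 : (L.primeFactors.card + 1).factorial ≤ L := by
    refine (factorial_le_prod L.primeFactors (fun p hp =>
      (Nat.prime_of_mem_primeFactors hp).two_le)).trans ?_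
    exact Nat.le_of_dvd hL0 (Nat.prod_primeFactors_dvd L)
  have h4 : L.primeFactors.card ≤ ⌊(K + 1) / 2⌋₊ := by
    by_contra h
    push Not at h
    have h5 : (⌊(K + 1) / 2⌋₊ + 2).factorial ≤ (L.primeFactors.card + 1).factorial :=
      Nat.factorial_le (by omega)
    omega
  have h5 : ((A.toFinset.biUnion Nat.primeFactors).card : ℝ) ≤ ⌊(K + 1) / 2⌋₊ := by
    exact_mod_cast h2.trans h4
  have h6 : ((⌊(K + 1) / 2⌋₊ : ℕ) : ℝ) ≤ (K + 1) / 2 := Nat.floor_le (by linarith)
  linarith

end Pool.Agent.W219.UF
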