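import Mathlib
import Pool.Agent.W219.UF.Few

set_option autoImplicit false

namespace Pool.Agent.W219.UF

open Finset

lemma greedy_aux (ε : ℝ) (B : Multiset ℕ) (hB : ∀ b ∈ B, (1 : ℝ) / (b : ℝ) ≤ ε) :
    ∃ S ≤ B, sg S ≤ 1 ∧ (S = B ∨ 1 - ε < sg S) := by
  classical
  induction B using Multiset.induction_on with
  | empty => exact ⟨0, le_rfl, by rw [sg_zero]; norm_num, Or.inl rfl⟩
  | cons b B ih =>
    obtain ⟨S, hS, h1, h2⟩ := ih (fun x hx => hB x (Multiset.mem_cons_of_mem hx))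
    by_cases h3 : 1 - ε < sg S
    · exact ⟨S, hS.trans (Multiset.le_cons_self B b), h1, Or.inr h3⟩
    · rcases h2 with h2 | h2
      · refine ⟨b ::ₘ B, le_rfl, ?_, Or.inl rfl⟩
        rw [sg_cons]
        rw [h2] at h3
        have := hB b (Multiset.mem_cons_self b B)
        linarith
      · exact absurd h2 h3

lemma greedy (ε : ℝ) (hε : 0 < ε) (B : Multiset ℕ) (hB : ∀ b ∈ B, (1 : ℝ) / (b : ℝ) ≤ ε)
    (h1 : 1 ≤ sg B) : ∃ S ≤ B, 1 - ε < sg S ∧ sg S ≤ 1 := by
  obtain ⟨S, hS, h2, h3⟩ := greedy_aux ε B hB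
  refine ⟨S, hS, ?_, h2⟩
  rcases h3 with h3 | h3
  · rw [h3]; linarith
  · exact h3

/-- only the primes dividing elements below `exp K` matter -/
theorem few_primes_below (K : ℝ) (hK : 1 < K) (A : Multiset ℕ) (hpos : ∀ a ∈ A, 0 < a)
    (hmass : K < sg A)
    (hfew : 2 * ((((A.filter (fun n : ℕ => (n : ℝ) < Real.exp K)).toFinset).biUnion
      Nat.primeFactors).card : ℝ) ≤ K) :
    ∃ S ≤ A, 1 - Real.exp (-K) < sg S ∧ sg S ≤ 1 := by
  classical
  have hsplit : sg A = sg (A.filter (fun n : ℕ => (n : ℝ) < Real.exp K)) +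
      sg (A.filter (fun n : ℕ => ¬ (n : ℝ) < Real.exp K)) := by
    rw [← sg_add, Multiset.filter_add_not]
  by_cases h1 : 1 ≤ sg (A.filter (fun n : ℕ => ¬ (n : ℝ) < Real.exp K))
  · obtain ⟨S, hS, h2, h3⟩ := greedy (Real.exp (-K)) (Real.exp_pos _) _ (by
      intro b hb
      have h4 := (Multiset.mem_filter.1 hb).2
      rw [Real.exp_neg, ← one_div]
      exact one_div_le_one_div_of_le (Real.exp_pos _) (not_lt.1 h4)) h1
    exact ⟨S, hS.trans (Multiset.filter_le _ _), h2, h3⟩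
  · have h2 := not_le.1 h1
    have h3 : K - 1 < sg (A.filter (fun n : ℕ => (n : ℝ) < Real.exp K)) := by linarith
    obtain ⟨S, hS, h4⟩ := exact_one
      (((A.filter (fun n : ℕ => (n : ℝ) < Real.exp K)).toFinset).biUnion Nat.primeFactors) (by
        intro p hp
        rw [Finset.mem_biUnion] at hp
        obtain ⟨a, _, h⟩ := hp
        exact Nat.prime_of_mem_primeFactors h)
      (A.filter (fun n : ℕ => (n : ℝ) < Real.exp K)) (by
        intro h0
        rw [h0, sg_zero] at h3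
        linarith) (by
        intro a ha
        refine ⟨hpos a (Multiset.mem_filter.1 ha).1, ?_⟩
        intro p hp
        rw [Finset.mem_biUnion]
        exact ⟨a, Multiset.mem_toFinset.2 ha, hp⟩) (by linarith)
    refine ⟨S, hS.trans (Multiset.filter_le _ _), ?_, h4.le⟩
    rw [h4]
    have := Real.exp_pos (-K)
    linarith

end Pool.Agent.W219.UF
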