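import Mathlib
import Pool.Agent.Helper307.UF.Trig

set_option autoImplicit false

namespace Pool.Agent.W219.NR

open Finset Pool.Agent.Helper307.UF

/-- one new phase for every element kills a proportion of the frequencies -/
lemma kill {ι : Type*} [DecidableEq ι] (b : ι → ℕ) (F : Finset ℕ) (s : Finset ι)
    (hb : ∀ i ∈ s, 0 < b i) :
    ∃ c : ι → ℂ, (∀ i, ‖c i‖ = 1) ∧
      ((F.filter (fun m : ℕ => ∏ i ∈ s, (c i - ee (m * (1 / (b i : ℝ)))) ≠ 0)).card : ℝ) ≤
        F.card * ∏ i ∈ s, (1 - 1 / (b i : ℝ)) := by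
  classical
  induction s using Finset.induction_on with
  | empty =>
    refine ⟨fun _ => 1, fun _ => by simp, ?_⟩
    rw [Finset.prod_empty, mul_one]
    exact_mod_cast Finset.card_filter_le _ _
  | insert a s ha ih =>
    obtain ⟨c, hc1, hc2⟩ := ih (fun i hi => hb i (Finset.mem_insert_of_mem hi))
    have hba := hb a (Finset.mem_insert_self a s)
    have hbar : (0 : ℝ) < b a := by exact_mod_cast hba
    obtain ⟨F1, hF1⟩ : ∃ F1 : Finset ℕ, F1 = F.filter (fun m : ℕ =>
      ∏ i ∈ s, (c i - ee (m * (1 / (b i : ℝ)))) ≠ 0) := ⟨_, rfl⟩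
    rw [← hF1] at hc2
    obtain ⟨y, hy, hy2⟩ := Finset.exists_le_card_fiber_of_nsmul_le_card_of_maps_to
      (s := F1) (t := Finset.range (b a)) (f := fun m => m % b a) (b := (F1.card : ℝ) / b a)
      (fun m _ => Finset.mem_range.2 (Nat.mod_lt _ hba)) ⟨0, Finset.mem_range.2 hba⟩ (by
        rw [Finset.card_range, nsmul_eq_mul, mul_div_cancel₀ _ hbar.ne'])
    refine ⟨Function.update c a (ee (y * (1 / (b a : ℝ)))), ?_, ?_⟩
    · intro i
      by_cases hi : i = a
      · rw [hi, Function.update_self, norm_ee]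
      · rw [Function.update_of_ne hi]; exact hc1 i
    · have hsub : F.filter (fun m : ℕ => ∏ i ∈ insert a s,
          (Function.update c a (ee (y * (1 / (b a : ℝ)))) i - ee (m * (1 / (b i : ℝ)))) ≠ 0) ⊆
          F1.filter (fun m => ¬ m % b a = y) := by
        intro m hm
        rw [Finset.mem_filter, Finset.prod_insert ha, Function.update_self] at hm
        obtain ⟨hm1, hm2⟩ := hm
        have h1 := left_ne_zero_of_mul hm2
        have h2 := right_ne_zero_of_mul hm2
        rw [Finset.mem_filter, hF1, Finset.mem_filter]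
        refine ⟨⟨hm1, ?_⟩, ?_⟩
        · intro h3
          apply h2
          rw [← h3]
          refine Finset.prod_congr rfl (fun i hi => ?_)
          have hia : i ≠ a := fun h => ha (h ▸ hi)
          rw [Function.update_of_ne hia]
        · intro h3
          apply h1
          have h4 : (m : ℝ) * (1 / (b a : ℝ)) = ((m / b a : ℕ) : ℝ) + y * (1 / (b a : ℝ)) := by
            have h5 : (m : ℝ) = b a * ((m / b a : ℕ) : ℝ) + y := by
              have := Nat.div_add_mod m (b a)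
              rw [h3] at this
              exact_mod_cast this.symm
            rw [h5]
            field_simp
          rw [h4, ee_add, ee_nat, one_mul, sub_self]
      have h1 := Finset.card_le_card hsub
      have h2 := Finset.card_filter_add_card_filter_not (s := F1) (fun m => m % b a = y)
      have h3 : ((F1.filter (fun m => ¬ m % b a = y)).card : ℝ) ≤ F1.card * (1 - 1 / (b a : ℝ)) := by
        have h4 : ((F1.filter (fun m => m % b a = y)).card : ℝ) +
          ((F1.filter (fun m => ¬ m % b a = y)).card : ℝ) = F1.card := by exact_mod_cast h2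
        have h5 : (F1.card : ℝ) * (1 - 1 / (b a : ℝ)) = F1.card - F1.card / b a := by ring
        rw [h5]
        linarith
      have h6 : 0 ≤ 1 - 1 / (b a : ℝ) := by
        have : 1 / (b a : ℝ) ≤ 1 := by
          rw [div_le_one hbar]; exact_mod_cast hba
        linarith
      calc _ ≤ ((F1.filter (fun m => ¬ m % b a = y)).card : ℝ) := by exact_mod_cast h1
        _ ≤ F1.card * (1 - 1 / (b a : ℝ)) := h3
        _ ≤ (F.card * ∏ i ∈ s, (1 - 1 / (b i : ℝ))) * (1 - 1 / (b a : ℝ)) :=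
            mul_le_mul_of_nonneg_right hc2 h6
        _ = _ := by rw [Finset.prod_insert ha]; ring

lemma ee_sum {ι : Type*} (t : Finset ι) (x : ι → ℝ) : ee (∑ i ∈ t, x i) = ∏ i ∈ t, ee (x i) := by
  classical
  induction t using Finset.induction_on with
  | empty => simp [ee_zero]
  | insert a s ha ih => rw [Finset.sum_insert ha, Finset.prod_insert ha, ee_add, ih]

/-- some nonempty sub-sum has a large cosine power -/
lemma large_cos {ι : Type*} [DecidableEq ι] (b : ι → ℕ) (s : Finset ι) (hb : ∀ i ∈ s, 0 < b i)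
    (n : ℕ) (hn : ((n : ℝ) + 1) * ∏ i ∈ s, (1 - 1 / (b i : ℝ)) < 1) :
    ∃ t ⊆ s, t.Nonempty ∧
      (1 / 2 : ℝ) ^ s.card ≤ |Real.cos (Real.pi * ∑ i ∈ t, 1 / (b i : ℝ))| ^ n := by
  classical
  obtain ⟨c, hc1, hc2⟩ := kill b (Finset.range (n + 1)) s hb
  rw [Finset.card_range] at hc2
  push_cast at hc2
  have hempty : (Finset.range (n + 1)).filter
      (fun m : ℕ => ∏ i ∈ s, (c i - ee (m * (1 / (b i : ℝ)))) ≠ 0) = ∅ := by
    rw [← Finset.card_eq_zero]
    have h1 := lt_of_le_of_lt hc2 hn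
    have h2 : ((Finset.range (n + 1)).filter
      (fun m : ℕ => ∏ i ∈ s, (c i - ee (m * (1 / (b i : ℝ)))) ≠ 0)).card < 1 := by exact_mod_cast h1
    omega
  have hzero : ∀ m ∈ Finset.range (n + 1), ∏ i ∈ s, (c i - ee (m * (1 / (b i : ℝ)))) = 0 := by
    intro m hm
    by_contra h
    have : m ∈ (Finset.range (n + 1)).filter
      (fun m : ℕ => ∏ i ∈ s, (c i - ee (m * (1 / (b i : ℝ)))) ≠ 0) := Finset.mem_filter.2 ⟨hm, h⟩
    rw [hempty] at this
    exact absurd this (Finset.notMem_empty m)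
  set σ : Finset ι → ℝ := fun t => ∑ i ∈ t, 1 / (b i : ℝ) with hσ
  set w : Finset ι → ℂ := fun t => (∏ _i ∈ t, (-1 : ℂ)) * ∏ i ∈ s \ t, c i with hw
  have hwn : ∀ t, ‖w t‖ = 1 := by
    intro t
    rw [hw]
    simp only
    rw [norm_mul, norm_prod, norm_prod]
    simp [hc1]
  have hexp : ∀ m ∈ Finset.range (n + 1), ∑ t ∈ s.powerset, w t * ee (σ t) ^ m = 0 := by
    intro m hm
    rw [← hzero m hm]
    have h1 : ∀ i ∈ s, c i - ee (m * (1 / (b i : ℝ))) = (-1) * ee (1 / (b i : ℝ)) ^ m + c i := by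
      intro i _
      rw [ee_nat_mul]; ring
    rw [Finset.prod_congr rfl h1, Finset.prod_add]
    refine Finset.sum_congr rfl (fun t _ => ?_)
    rw [hw, hσ]
    simp only
    rw [ee_sum, Finset.prod_mul_distrib, Finset.prod_pow]
    ring
  have hsum : ∑ t ∈ s.powerset, w t * (1 + ee (σ t)) ^ n = 0 := by
    have h1 : ∀ t ∈ s.powerset, w t * (1 + ee (σ t)) ^ n =
        ∑ m ∈ Finset.range (n + 1), (n.choose m : ℂ) * (w t * ee (σ t) ^ m) := by
      intro t _
      rw [add_comm, add_pow, Finset.mul_sum]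
      refine Finset.sum_congr rfl (fun m _ => ?_)
      rw [one_pow]; ring
    rw [Finset.sum_congr rfl h1, Finset.sum_comm]
    apply Finset.sum_eq_zero
    intro m hm
    rw [← Finset.mul_sum, hexp m hm, mul_zero]
  by_contra hcon
  push Not at hcon
  have hmem : (∅ : Finset ι) ∈ s.powerset := Finset.empty_mem_powerset s
  rw [← Finset.add_sum_erase _ _ hmem] at hsum
  have h0 : σ ∅ = 0 := by rw [hσ]; simp
  rw [h0, ee_zero] at hsum
  have h1 : w ∅ * (1 + 1) ^ n = - ∑ t ∈ s.powerset.erase ∅, w t * (1 + ee (σ t)) ^ n := by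
    linear_combination hsum
  have h2 : ‖w ∅ * (1 + 1 : ℂ) ^ n‖ = 2 ^ n := by
    rw [norm_mul, hwn, one_mul, norm_pow]
    norm_num
  have h3 : ‖∑ t ∈ s.powerset.erase ∅, w t * (1 + ee (σ t)) ^ n‖ ≤
      ∑ t ∈ s.powerset.erase ∅, 2 ^ n * (1 / 2 : ℝ) ^ s.card := by
    refine (norm_sum_le _ _).trans (Finset.sum_le_sum (fun t ht => ?_))
    rw [Finset.mem_erase, Finset.mem_powerset] at ht
    rw [norm_mul, hwn, one_mul, norm_pow, norm_one_add_ee, mul_pow]
    have h4 := hcon t ht.2 (Finset.nonempty_iff_ne_empty.2 ht.1)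
    exact mul_le_mul_of_nonneg_left h4.le (by positivity)
  rw [h1, norm_neg] at h2
  rw [h2, Finset.sum_const, nsmul_eq_mul, Finset.card_erase_of_mem hmem, Finset.card_powerset] at h3
  have h5 : (((2 ^ s.card - 1 : ℕ)) : ℝ) = 2 ^ s.card - 1 := by
    rw [Nat.cast_sub Nat.one_le_two_pow]; push_cast; ring
  rw [h5] at h3
  have h6 : (2 : ℝ) ^ s.card * (1 / 2) ^ s.card = 1 := by
    rw [← mul_pow]; norm_num
  have h7 : (0 : ℝ) < 2 ^ n := by positivity
  have h8 : (0 : ℝ) < (1 / 2) ^ s.card := by positivity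
  have h9 : (2 ^ s.card - 1 : ℝ) * (2 ^ n * (1 / 2) ^ s.card) =
      2 ^ n * (2 ^ s.card * (1 / 2) ^ s.card) - 2 ^ n * (1 / 2) ^ s.card := by ring
  rw [h9, h6] at h3
  nlinarith [mul_pos h7 h8]

/-- a large cosine power forces closeness to an integer -/
lemma cos_close (σ : ℝ) (n N J : ℕ) (hN : 0 < N) (hn : N * 4 ^ J ≤ n)
    (h : (1 / 2 : ℝ) ^ N ≤ |Real.cos (Real.pi * σ)| ^ n) : |σ - round σ| < (1 / 2 : ℝ) ^ J := by
  by_contra hcon
  push Not at hcon
  set δ : ℝ := σ - round σ with hδ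
  have hδ2 : |δ| ≤ 1 / 2 := abs_sub_round σ
  have h1 : |Real.cos (Real.pi * σ)| = |Real.cos (Real.pi * δ)| := by
    have h2 := norm_one_add_ee σ
    have h3 := norm_one_add_ee δ
    rw [hδ, ee_sub_round, h2] at h3
    linarith
  have h2 : |Real.cos (Real.pi * δ)| ≤ Real.exp (-(2 * δ ^ 2)) := by
    have h3 : |Real.pi * δ| ≤ Real.pi / 2 := by
      rw [abs_mul, abs_of_pos Real.pi_pos]
      nlinarith [Real.pi_pos]
    have h4 := abs_le.1 h3
    have h5 : 0 ≤ Real.cos (Real.pi * δ) := Real.cos_nonneg_of_mem_Icc ⟨by linarith [h4.1], h4.2⟩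
    rw [abs_of_nonneg h5]
    have h6 := Real.cos_le_one_sub_mul_cos_sq (x := Real.pi * δ) (h3.trans (by
      linarith [Real.pi_pos]))
    have h7 : 2 / Real.pi ^ 2 * (Real.pi * δ) ^ 2 = 2 * δ ^ 2 := by
      have := Real.pi_pos.ne'
      field_simp
    rw [h7] at h6
    have h8 := Real.add_one_le_exp (-(2 * δ ^ 2))
    linarith
  have h3 : |Real.cos (Real.pi * σ)| ^ n ≤ Real.exp (-(2 * N)) := by
    rw [h1]
    refine (pow_le_pow_left₀ (abs_nonneg _) h2 n).trans ?_
    rw [← Real.exp_nat_mul]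
    apply Real.exp_le_exp.2
    have h4 : ((1 / 2 : ℝ) ^ J) ^ 2 ≤ δ ^ 2 := by
      rw [← sq_abs δ]
      exact pow_le_pow_left₀ (by positivity) hcon 2
    have h5 : ((1 / 2 : ℝ) ^ J) ^ 2 * 4 ^ J = 1 := by
      rw [← pow_mul, mul_comm J 2, pow_mul, ← mul_pow]; norm_num
    have h6 : (N : ℝ) * 4 ^ J ≤ n := by exact_mod_cast hn
    have h7 : (N : ℝ) ≤ n * δ ^ 2 := by
      calc (N : ℝ) = (N * 4 ^ J) * ((1 / 2 : ℝ) ^ J) ^ 2 := by
            rw [mul_assoc, mul_comm ((4 : ℝ) ^ J), h5, mul_one]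
        _ ≤ n * δ ^ 2 := mul_le_mul h6 h4 (by positivity) (by positivity)
    nlinarith
  have h4 : Real.exp (-(2 * (N : ℝ))) < (1 / 2 : ℝ) ^ N := by
    have h5 : (1 / 2 : ℝ) = Real.exp (-Real.log 2) := by
      rw [Real.exp_neg, Real.exp_log (by norm_num)]; norm_num
    rw [h5, ← Real.exp_nat_mul]
    apply Real.exp_lt_exp.2
    have h6 : Real.log 2 < 0.6931471808 := Real.log_two_lt_d9
    have h7 : (1 : ℝ) ≤ N := by exact_mod_cast hN
    nlinarith
  linarith

end Pool.Agent.W219.NR
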