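import Mathlib
import Pool.Agent.W219.UF.Near
import Pool.Agent.Helper307.UF.Final

set_option autoImplicit false

namespace Pool.Agent.W219.NR

open Finset Pool.Agent.Helper307.UF

/-- the case of small elements, in reduced form -/
theorem near_small (J : ℕ) (A : Multiset ℕ) (hred : ∀ a ∈ A, 2 ≤ a ∧ A.count a < a.minFac)
    (hlt : ∀ a ∈ A, a < 2 ^ J) (hmass : 3 * (J : ℝ) + 1 < sg A) :
    ∃ S ≤ A, S ≠ 0 ∧ ∃ n : ℕ, 1 ≤ n ∧ |sg S - n| < (1 / 2 : ℝ) ^ J := by
  classical
  obtain ⟨l, hl⟩ : ∃ l : List ℕ, (l : Multiset ℕ) = A := Quotient.exists_rep A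
  obtain ⟨b, hb⟩ : ∃ b : Fin l.length → ℕ, b = l.get := ⟨_, rfl⟩
  have hbA : (Finset.univ : Finset (Fin l.length)).val.map b = A := by
    rw [Fin.univ_val_map, hb, List.ofFn_get, hl]
  have hbmem : ∀ i, b i ∈ A := by
    intro i
    rw [← hbA, Multiset.mem_map]
    exact ⟨i, Finset.mem_univ_val i, rfl⟩
  have hb2 : ∀ i, 2 ≤ b i := fun i => (hred _ (hbmem i)).1
  have hσ : ∀ t : Finset (Fin l.length), sg (t.val.map b) = ∑ i ∈ t, 1 / (b i : ℝ) := by
    intro t
    unfold sg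
    rw [Multiset.map_map]
    rfl
  have hcard : A.card = l.length := by rw [← hl]; rfl
  have hN : l.length ≤ 4 ^ J := by
    rw [← hcard, ← Multiset.toFinset_sum_count_eq]
    calc ∑ a ∈ A.toFinset, A.count a ≤ ∑ _a ∈ A.toFinset, 2 ^ J := by
          refine Finset.sum_le_sum (fun a ha => ?_)
          rw [Multiset.mem_toFinset] at ha
          have h1 := hred a ha
          have h2 := Nat.minFac_le (n := a) (by omega)
          have h3 := hlt a ha
          omega
      _ = A.toFinset.card * 2 ^ J := by rw [Finset.sum_const, smul_eq_mul]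
      _ ≤ 2 ^ J * 2 ^ J := by
          apply Nat.mul_le_mul_right
          have h1 : A.toFinset ⊆ Finset.range (2 ^ J) := by
            intro a ha
            rw [Multiset.mem_toFinset] at ha
            exact Finset.mem_range.2 (hlt a ha)
          have h2 := Finset.card_le_card h1
          rwa [Finset.card_range] at h2
      _ = 4 ^ J := by rw [← mul_pow]; norm_num
  have hNpos : 0 < l.length := by
    rcases Nat.eq_zero_or_pos l.length with h | h
    · exfalso
      have h1 : A = 0 := by rw [← Multiset.card_eq_zero, hcard, h]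
      rw [h1, sg_zero] at hmass
      have : (0 : ℝ) ≤ J := by positivity
      linarith
    · exact h
  set n : ℕ := l.length * 4 ^ J with hn
  have hmass2 : sg A = ∑ i : Fin l.length, 1 / (b i : ℝ) := by
    rw [← hσ, hbA]
  have hprod : ((n : ℝ) + 1) * ∏ i : Fin l.length, (1 - 1 / (b i : ℝ)) < 1 := by
    have h1 : ∏ i : Fin l.length, (1 - 1 / (b i : ℝ)) ≤ Real.exp (-(sg A)) := by
      rw [hmass2, ← Finset.sum_neg_distrib, Real.exp_sum]
      refine Finset.prod_le_prod (fun i _ => ?_) (fun i _ => ?_)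
      · have h2 : (2 : ℝ) ≤ b i := by exact_mod_cast hb2 i
        have h3 : 1 / (b i : ℝ) ≤ 1 / 2 := one_div_le_one_div_of_le (by norm_num) h2
        linarith
      · have := Real.add_one_le_exp (-(1 / (b i : ℝ)))
        linarith
    have h2 : (n : ℝ) + 1 ≤ 2 * 16 ^ J := by
      have h3 : n + 1 ≤ 2 * 16 ^ J := by
        have h4 : n ≤ 4 ^ J * 4 ^ J := Nat.mul_le_mul_right _ hN
        have h5 : 4 ^ J * 4 ^ J = 16 ^ J := by rw [← mul_pow]; norm_num
        have h6 : 1 ≤ 16 ^ J := Nat.one_le_pow _ _ (by norm_num)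
        omega
      exact_mod_cast h3
    have h3 : (2 : ℝ) * 16 ^ J < Real.exp (sg A) := by
      have h4 : (2 : ℝ) * 16 ^ J = Real.exp ((4 * J + 1) * Real.log 2) := by
        rw [add_mul, Real.exp_add, one_mul, Real.exp_log (by norm_num), mul_comm (2 : ℝ)]
        congr 1
        rw [mul_comm (4 * (J : ℝ)), ← mul_assoc, mul_comm (Real.log 2 * 4), Real.exp_nat_mul]
        congr 1
        rw [mul_comm, show (4 : ℝ) = ((4 : ℕ) : ℝ) by norm_num, Real.exp_nat_mul,
          Real.exp_log (by norm_num)]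
        norm_num
      rw [h4]
      apply Real.exp_lt_exp.2
      have h5 : Real.log 2 < 0.6931471808 := Real.log_two_lt_d9
      have h6 : (0 : ℝ) ≤ J := by positivity
      nlinarith
    have h4 : 0 < Real.exp (-(sg A)) := Real.exp_pos _
    calc ((n : ℝ) + 1) * ∏ i : Fin l.length, (1 - 1 / (b i : ℝ))
        ≤ ((n : ℝ) + 1) * Real.exp (-(sg A)) := mul_le_mul_of_nonneg_left h1 (by positivity)
      _ ≤ (2 * 16 ^ J) * Real.exp (-(sg A)) := mul_le_mul_of_nonneg_right h2 h4.le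
      _ < Real.exp (sg A) * Real.exp (-(sg A)) := mul_lt_mul_of_pos_right h3 h4
      _ = 1 := by rw [← Real.exp_add, add_neg_cancel, Real.exp_zero]
  obtain ⟨t, _, htne, ht⟩ := large_cos b Finset.univ (fun i _ => by have := hb2 i; omega) n hprod
  rw [Finset.card_univ, Fintype.card_fin] at ht
  have hclose := cos_close _ n l.length J hNpos le_rfl ht
  rw [← hσ] at hclose
  have hpos : (1 / 2 : ℝ) ^ J < sg (t.val.map b) := by
    obtain ⟨i, hi⟩ := htne
    rw [hσ]
    have h1 : 1 / (b i : ℝ) ≤ ∑ i ∈ t, 1 / (b i : ℝ) :=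
      Finset.single_le_sum (f := fun i => 1 / (b i : ℝ)) (fun i _ => by positivity) hi
    refine lt_of_lt_of_le ?_ h1
    rw [one_div_pow]
    have h2 : 0 < b i := by have := hb2 i; omega
    have h3 : (0 : ℝ) < b i := by exact_mod_cast h2
    apply one_div_lt_one_div_of_lt h3
    exact_mod_cast hlt _ (hbmem i)
  have hround : 1 ≤ round (sg (t.val.map b)) := by
    by_contra hcon
    have h1 : round (sg (t.val.map b)) ≤ 0 := by omega
    have h2 : ((round (sg (t.val.map b)) : ℤ) : ℝ) ≤ 0 := by exact_mod_cast h1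
    have h3 := (abs_lt.1 hclose).2
    linarith
  refine ⟨t.val.map b, ?_, ?_, (round (sg (t.val.map b))).toNat, ?_, ?_⟩
  · conv_rhs => rw [← hbA]
    exact Multiset.map_le_map (Finset.val_le_iff.2 (Finset.subset_univ t))
  · intro h0
    rw [Multiset.map_eq_zero, Finset.val_eq_zero] at h0
    exact htne.ne_empty h0
  · omega
  · have h1 : (((round (sg (t.val.map b))).toNat : ℕ) : ℝ) = ((round (sg (t.val.map b)) : ℤ) : ℝ) := by
      have h2 : (((round (sg (t.val.map b))).toNat : ℕ) : ℤ) = round (sg (t.val.map b)) :=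
        Int.toNat_of_nonneg (by omega)
      exact_mod_cast congrArg (fun z : ℤ => (z : ℝ)) h2
    rw [h1]
    exact hclose

/-- the dyadic form -/
theorem near_dyadic (J : ℕ) (A : Multiset ℕ) (hpos : ∀ a ∈ A, 0 < a)
    (hmass : 3 * (J : ℝ) + 2 < sg A) :
    ∃ S ≤ A, S ≠ 0 ∧ ∃ n : ℕ, 1 ≤ n ∧ |sg S - n| < (1 / 2 : ℝ) ^ J := by
  classical
  have hne : ∀ (S : Multiset ℕ) (n : ℕ), 1 ≤ n → |sg S - n| < (1 / 2 : ℝ) ^ J → S ≠ 0 := by
    rintro S n hn h rfl
    rw [sg_zero, zero_sub, abs_neg, abs_of_nonneg (by positivity)] at h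
    have h1 : (1 : ℝ) ≤ n := by exact_mod_cast hn
    have h2 : (1 / 2 : ℝ) ^ J ≤ 1 := pow_le_one₀ (by norm_num) (by norm_num)
    linarith
  obtain ⟨A', h1, h2, h3⟩ := merge A.card A le_rfl hpos
  suffices h4 : ∃ S ≤ A', ∃ n : ℕ, 1 ≤ n ∧ |sg S - n| < (1 / 2 : ℝ) ^ J by
    obtain ⟨S', hS', n, hn, h5⟩ := h4
    obtain ⟨S, hS, h6⟩ := h2 S' hS'
    rw [← h6] at h5
    exact ⟨S, hS, hne S n hn h5, n, hn, h5⟩
  have hJ0 : (0 : ℝ) < (1 / 2) ^ J := by positivity
  rcases h3 with h3 | h3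
  · refine ⟨{1}, Multiset.singleton_le.2 h3, 1, le_rfl, ?_⟩
    rw [sg_singleton]
    norm_num
  · by_cases h4 : 1 ≤ sg (A'.filter (fun a => ¬ a < 2 ^ J))
    · obtain ⟨S, hS, h6, h7⟩ := greedy ((1 / 2 : ℝ) ^ J) hJ0 _ (by
        intro b hb
        rw [Multiset.mem_filter] at hb
        have h8 : 2 ^ J ≤ b := by omega
        have h9 : (2 : ℝ) ^ J ≤ b := by exact_mod_cast h8
        rw [one_div_pow]
        exact one_div_le_one_div_of_le (by positivity) h9) h4
      refine ⟨S, hS.trans (Multiset.filter_le _ _), 1, le_rfl, ?_⟩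
      rw [abs_lt]
      push_cast
      constructor <;> linarith
    · have h6 : sg A' = sg (A'.filter (fun a => a < 2 ^ J)) +
          sg (A'.filter (fun a => ¬ a < 2 ^ J)) := by
        rw [← sg_add, Multiset.filter_add_not]
      obtain ⟨S, hS, -, h7⟩ := near_small J (A'.filter (fun a => a < 2 ^ J)) (by
        intro a ha
        rw [Multiset.mem_filter] at ha
        rw [Multiset.count_filter_of_pos (p := fun a => a < 2 ^ J) ha.2]
        exact h3 a ha.1) (by
        intro a ha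
        exact (Multiset.mem_filter.1 ha).2) (by
        have h8 := not_le.1 h4
        linarith)
      exact ⟨S, hS.trans (Multiset.filter_le _ _), h7⟩

/-- the form with `K` -/
theorem near_exp (K : ℝ) (hK : 1 < K) (A : Multiset ℕ) (hpos : ∀ a ∈ A, 0 < a)
    (hmass : K < sg A) :
    ∃ S ≤ A, S ≠ 0 ∧ ∃ n : ℕ, 1 ≤ n ∧ |sg S - n| < Real.exp (-(K / 20)) := by
  by_cases h10 : K < 10
  · obtain ⟨S, hS, h1, h2⟩ := half A hpos (hK.trans hmass)
    refine ⟨S, hS, ?_, 1, le_rfl, ?_⟩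
    · rintro rfl
      rw [sg_zero] at h1
      norm_num at h1
    · have h3 : |sg S - ((1 : ℕ) : ℝ)| < 1 / 2 := by
        rw [abs_lt]; push_cast; constructor <;> linarith
      have h4 := Real.add_one_le_exp (-(K / 20))
      linarith
  · push Not at h10
    have h0 : 0 ≤ (K - 2) / 3 := by linarith
    have h1 : ((⌊(K - 2) / 3⌋₊ : ℕ) : ℝ) ≤ (K - 2) / 3 := Nat.floor_le h0
    have h2 : (K - 2) / 3 < ((⌊(K - 2) / 3⌋₊ : ℕ) : ℝ) + 1 := Nat.lt_floor_add_one _
    obtain ⟨S, hS, h3, n, hn, h4⟩ := near_dyadic ⌊(K - 2) / 3⌋₊ A hpos (by linarith)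
    refine ⟨S, hS, h3, n, hn, h4.trans_le ?_⟩
    have h5 : (1 / 2 : ℝ) = Real.exp (-Real.log 2) := by
      rw [Real.exp_neg, Real.exp_log (by norm_num)]; norm_num
    rw [h5, ← Real.exp_nat_mul]
    apply Real.exp_le_exp.2
    have h6 : (0.6931471803 : ℝ) < Real.log 2 := Real.log_two_gt_d9
    nlinarith

end Pool.Agent.W219.NR

namespace Pool.Agent.W219.NR

open Finset Pool.Agent.Helper307.UF

lemma trim (K : ℝ) (hK : 0 ≤ K) (A : Multiset ℕ) (hpos : ∀ a ∈ A, 0 < a) (h : K < sg A) :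
    ∃ B ≤ A, K < sg B ∧ sg B ≤ K + 1 := by
  classical
  induction A using Multiset.induction_on with
  | empty =>
    rw [sg_zero] at h
    linarith
  | cons a A ih =>
    by_cases h1 : K < sg A
    · obtain ⟨B, hB, h2⟩ := ih (fun x hx => hpos x (Multiset.mem_cons_of_mem hx)) h1
      exact ⟨B, hB.trans (Multiset.le_cons_self A a), h2⟩
    · push Not at h1
      refine ⟨a ::ₘ A, le_rfl, h, ?_⟩
      rw [sg_cons]
      have h2 : (1 : ℝ) ≤ a := by
        exact_mod_cast hpos a (Multiset.mem_cons_self a A)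
      have h3 : 1 / (a : ℝ) ≤ 1 := by
        rw [div_le_one (by linarith)]; exact h2
      linarith

lemma sg_mono {A B : Multiset ℕ} (h : A ≤ B) : sg A ≤ sg B := by
  obtain ⟨C, rfl⟩ := Multiset.le_iff_exists_add.1 h
  rw [sg_add]
  have := sg_nonneg C
  linarith

/-- the form with `K` and a bound for the integer -/
theorem near_bdd (K : ℝ) (hK : 1 < K) (A : Multiset ℕ) (hpos : ∀ a ∈ A, 0 < a)
    (hmass : K < sg A) :
    ∃ S ≤ A, S ≠ 0 ∧ ∃ n : ℕ, 1 ≤ n ∧ (n : ℝ) < K + 2 ∧ |sg S - n| < Real.exp (-(K / 20)) := by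
  obtain ⟨B, hB, h1, h2⟩ := trim K (by linarith) A hpos hmass
  obtain ⟨S, hS, h3, n, hn, h4⟩ := near_exp K hK B
    (fun a ha => hpos a (Multiset.mem_of_le hB ha)) h1
  refine ⟨S, hS.trans hB, h3, n, hn, ?_, h4⟩
  have h5 := sg_mono hS
  have h6 : Real.exp (-(K / 20)) < 1 := by
    rw [Real.exp_lt_one_iff]; linarith
  have h7 := (abs_lt.1 h4).1
  linarith

end Pool.Agent.W219.NR
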