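import Mathlib
import Pool.Agent.W219.UF.Sharp

set_option autoImplicit false

namespace Pool.Agent.W219.UF

open Finset

/-- sub-sums of the extremal multiset are multiples of the reciprocal of the product -/
lemma sg_mul_prod (P : Finset ℕ) (hP : ∀ p ∈ P, p.Prime) (S : Multiset ℕ) (hS : ∀ a ∈ S, a ∈ P) :
    sg S * ((∏ q ∈ P, q : ℕ) : ℝ) = ((∑ a ∈ P, S.count a * ∏ q ∈ P.erase a, q : ℕ) : ℝ) := by
  classical
  rw [sg_count S P hS]
  push_cast
  rw [Finset.sum_mul]
  refine Finset.sum_congr rfl (fun a ha => ?_)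
  rw [← Finset.mul_prod_erase P (fun q => (q : ℝ)) ha]
  have h1 : (a : ℝ) ≠ 0 := by
    have := (hP a ha).pos
    have : (0 : ℝ) < a := by exact_mod_cast this
    exact this.ne'
  field_simp

lemma ext_gap (P : Finset ℕ) (hP : ∀ p ∈ P, p.Prime) (S : Multiset ℕ) (hS : S ≤ ext P)
    (h1 : sg S ≤ 1) : sg S ≤ 1 - 1 / ((∏ q ∈ P, q : ℕ) : ℝ) := by
  classical
  have hmem : ∀ a ∈ S, a ∈ P := by
    intro a ha
    have h1 : 0 < (ext P).count a := by
      rw [Multiset.count_pos]
      exact Multiset.mem_of_le hS ha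
    rw [count_ext] at h1
    by_contra h2
    rw [if_neg h2] at h1
    exact lt_irrefl _ h1
  have h2 := sg_mul_prod P hP S hmem
  have h3 := ext_no P hP S hS
  have hLpos : 0 < ∏ q ∈ P, q := Finset.prod_pos (fun q hq => (hP q hq).pos)
  have hLr : (0 : ℝ) < ((∏ q ∈ P, q : ℕ) : ℝ) := by exact_mod_cast hLpos
  obtain ⟨m, hm⟩ : ∃ m : ℕ, m = ∑ a ∈ P, S.count a * ∏ q ∈ P.erase a, q := ⟨_, rfl⟩
  rw [← hm] at h2
  have h4 : m ≤ ∏ q ∈ P, q := by
    have h5 : (m : ℝ) ≤ ((∏ q ∈ P, q : ℕ) : ℝ) := by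
      rw [← h2]; nlinarith
    exact_mod_cast h5
  have h5 : m ≠ ∏ q ∈ P, q := by
    intro h
    rw [h] at h2
    apply h3
    exact mul_right_cancel₀ hLr.ne' (by rw [h2, one_mul])
  have h6 : m + 1 ≤ ∏ q ∈ P, q := by omega
  have h7 : (m : ℝ) + 1 ≤ ((∏ q ∈ P, q : ℕ) : ℝ) := by exact_mod_cast h6
  have h8 : (1 - 1 / ((∏ q ∈ P, q : ℕ) : ℝ)) * ((∏ q ∈ P, q : ℕ) : ℝ) =
      ((∏ q ∈ P, q : ℕ) : ℝ) - 1 := by
    rw [sub_mul, one_mul, one_div, inv_mul_cancel₀ hLr.ne']
  have h9 : sg S * ((∏ q ∈ P, q : ℕ) : ℝ) ≤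
      (1 - 1 / ((∏ q ∈ P, q : ℕ) : ℝ)) * ((∏ q ∈ P, q : ℕ) : ℝ) := by
    rw [h8, h2]; linarith
  exact le_of_mul_le_mul_right h9 hLr

lemma sg_mono {A B : Multiset ℕ} (h : A ≤ B) : sg A ≤ sg B := by
  obtain ⟨C, rfl⟩ := Multiset.le_iff_exists_add.1 h
  rw [sg_add]
  have := sg_nonneg C
  linarith

/-- many primes up to a multiple of `K log (K + 1)` -/
lemma many_primes (K : ℝ) (hK : 1 < K) : ∃ n : ℕ, (n : ℝ) ≤ 60 * (K * Real.log (K + 1)) + 1 ∧
    2 * K < Nat.primeCounting n := by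
  have hlog2 : (0.6931471803 : ℝ) < Real.log 2 := Real.log_two_gt_d9
  have hlog2' : Real.log 2 < 0.6931471808 := Real.log_two_lt_d9
  set L : ℝ := Real.log (K + 1) with hL
  have hL2 : Real.log 2 ≤ L := Real.log_le_log (by norm_num) (by linarith)
  have hKL : Real.log 2 ≤ K * L := by nlinarith
  obtain ⟨n, hn⟩ : ∃ n : ℕ, n = ⌈60 * (K * L)⌉₊ := ⟨_, rfl⟩
  have hn1 : 60 * (K * L) ≤ n := by rw [hn]; exact Nat.le_ceil _
  have hn2 : (n : ℝ) < 60 * (K * L) + 1 := by
    rw [hn]; exact Nat.ceil_lt_add_one (by nlinarith)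
  refine ⟨n, hn2.le, ?_⟩
  have hn41 : (41 : ℝ) ≤ n := by nlinarith
  have h1 := Chebyshev.psi_ge n
  have h2 := Chebyshev.psi_le_primeCounting_mul_log n
  have h3 : Real.log ((n : ℝ) + 1) ≤ 4 * Real.log 2 + ((n : ℝ) + 1) / 16 - 1 := by
    have h4 := Real.log_le_sub_one_of_pos (x := ((n : ℝ) + 1) / 16) (by positivity)
    rw [Real.log_div (by positivity) (by norm_num),
      show (16 : ℝ) = 2 ^ (4 : ℕ) by norm_num, Real.log_pow] at h4
    norm_num at h4 ⊢
    linarith
  have h5 : (n : ℝ) / 2 ≤ Nat.primeCounting n * Real.log n := by nlinarith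
  have hLK : L ≤ K := by
    have := Real.log_le_sub_one_of_pos (x := K + 1) (by linarith)
    linarith
  have h6 : Real.log n ≤ 8 * L := by
    have h7 : (n : ℝ) ≤ 64 * (K + 1) ^ 2 := by nlinarith
    have h8 : Real.log n ≤ Real.log (64 * (K + 1) ^ 2) :=
      Real.log_le_log (by linarith) h7
    rw [Real.log_mul (by norm_num) (by positivity), Real.log_pow,
      show (64 : ℝ) = 2 ^ (6 : ℕ) by norm_num, Real.log_pow] at h8
    push_cast at h8
    linarith
  by_contra hcon
  push Not at hcon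
  have h7 : (0 : ℝ) ≤ Nat.primeCounting n := by positivity
  have h8 : (0 : ℝ) ≤ Real.log n := Real.log_nonneg (by linarith)
  have h9 : Nat.primeCounting n * Real.log n ≤ 2 * K * (8 * L) :=
    mul_le_mul hcon h6 h8 (by linarith)
  nlinarith

/-- the rate cannot be better than `exp (-C K log (K + 1))` -/
theorem limit (K : ℝ) (hK : 1 < K) (N : ℕ) : ∃ A : Multiset ℕ, (∀ a ∈ A, 0 < a) ∧
    N ≤ A.card ∧ K < sg A ∧
    ∀ S ≤ A, sg S ≤ 1 → sg S ≤ 1 - Real.exp (-(90 * (K * Real.log (K + 1)))) := by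
  classical
  obtain ⟨n, hn1, hn2⟩ := many_primes K hK
  obtain ⟨P, hPdef⟩ : ∃ P : Finset ℕ, P = (Finset.range (n + 1)).filter Nat.Prime := ⟨_, rfl⟩
  have hP : ∀ p ∈ P, p.Prime := by
    intro p hp
    rw [hPdef, Finset.mem_filter] at hp
    exact hp.2
  have hcard : P.card = Nat.primeCounting n := by
    rw [hPdef, Nat.primeCounting, Nat.primeCounting', Nat.count_eq_card_filter_range]
  obtain ⟨L, hL⟩ : ∃ L : ℕ, L = ∏ q ∈ P, q := ⟨_, rfl⟩
  have hLpos : 0 < L := by
    rw [hL]; exact Finset.prod_pos (fun q hq => (hP q hq).pos)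
  have hL4 : L ≤ 4 ^ n := by
    rw [hL, hPdef]
    exact primorial_le_four_pow n
  have hLr : (0 : ℝ) < L := by exact_mod_cast hLpos
  have hMpos : 0 < 2 * L * (N + 1) := by positivity
  refine ⟨ext P + Multiset.replicate N (2 * L * (N + 1)), ?_, ?_, ?_, ?_⟩
  · intro a ha
    rw [Multiset.mem_add] at ha
    rcases ha with ha | ha
    · have h1 : 0 < (ext P).count a := by rw [Multiset.count_pos]; exact ha
      rw [count_ext] at h1
      split_ifs at h1
      · omega
      · omega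
    · rw [Multiset.eq_of_mem_replicate ha]; exact hMpos
  · rw [Multiset.card_add, Multiset.card_replicate]; omega
  · rw [sg_add, sg_ext P hP]
    have h1 : ∑ _p ∈ P, (1 / 2 : ℝ) ≤ ∑ p ∈ P, (1 - 1 / (p : ℝ)) := by
      refine Finset.sum_le_sum (fun p hp => ?_)
      have h2 : (2 : ℝ) ≤ p := by exact_mod_cast (hP p hp).two_le
      have h3 : 1 / (p : ℝ) ≤ 1 / 2 := one_div_le_one_div_of_le (by norm_num) h2
      linarith
    rw [Finset.sum_const, nsmul_eq_mul, hcard] at h1
    have h2 := sg_nonneg (Multiset.replicate N (2 * L * (N + 1)))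
    linarith
  · intro S hS h1
    have hSplit : S = (S ∩ ext P) + (S - ext P) := by
      ext a
      rw [Multiset.count_add, Multiset.count_inter, Multiset.count_sub]
      omega
    have h2 : S ∩ ext P ≤ ext P := Multiset.inter_le_right
    have h3 : S - ext P ≤ Multiset.replicate N (2 * L * (N + 1)) :=
      tsub_le_iff_left.2 hS
    have h4 : sg S = sg (S ∩ ext P) + sg (S - ext P) := by
      conv_lhs => rw [hSplit]
      rw [sg_add]
    have h5 := sg_nonneg (S - ext P)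
    have h6 := ext_gap P hP _ h2 (by linarith)
    rw [← hL] at h6
    have h7 := sg_mono h3
    rw [sg_replicate] at h7
    have h8 : (N : ℝ) * (1 / ((2 * L * (N + 1) : ℕ) : ℝ)) ≤ 1 / (2 * L) := by
      push_cast
      rw [mul_one_div, div_le_div_iff₀ (by positivity) (by positivity)]
      nlinarith
    have h9 : Real.exp (-(90 * (K * Real.log (K + 1)))) ≤ 1 / (2 * L) := by
      have hlog2 : (0.6931471803 : ℝ) < Real.log 2 := Real.log_two_gt_d9
      have hlog2' : Real.log 2 < 0.6931471808 := Real.log_two_lt_d9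
      have hL2 : Real.log 2 ≤ Real.log (K + 1) := Real.log_le_log (by norm_num) (by linarith)
      have hKL : Real.log 2 ≤ K * Real.log (K + 1) := by nlinarith
      have h10 : (2 : ℝ) * L ≤ Real.exp ((2 * n + 1) * Real.log 2) := by
        have h11 : Real.exp ((2 * n + 1) * Real.log 2) = 2 * 4 ^ n := by
          rw [add_mul, Real.exp_add, one_mul, Real.exp_log (by norm_num), mul_comm (2 : ℝ) n,
            mul_assoc, Real.exp_nat_mul, mul_comm (2 : ℝ) (Real.log 2), mul_comm]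
          congr 2
          rw [mul_comm, show (2 : ℝ) = ((2 : ℕ) : ℝ) by norm_num, Real.exp_nat_mul,
            Real.exp_log (by norm_num)]
          norm_num
        rw [h11]
        have h12 : (L : ℝ) ≤ 4 ^ n := by exact_mod_cast hL4
        linarith
      rw [Real.exp_neg, ← one_div]
      apply one_div_le_one_div_of_le (by positivity)
      refine h10.trans (Real.exp_le_exp.2 ?_)
      nlinarith
    have h10 : 1 / (L : ℝ) = 1 / (2 * L) + 1 / (2 * L) := by
      field_simp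
      norm_num
    linarith

end Pool.Agent.W219.UF
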